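import Mathlib
import Pool.Agent.Helper54.SP.StmtsP

/-!
Module ALTM of the crew project on MP_308581_lc: the iterated lifting alternates.
-/

namespace Pool.Agent.Helper54.SP

theorem st_ALTM (hALT : ST_ALT) : ST_ALTM := by
  intro m N σ ρ hσ hK
  have key : ∀ c, c ≤ m → Alt (3 + c) (N + c) (chi σ ρ c) := by
    intro c
    induction c with
    | zero => intro _; exact hσ
    | succ c ih =>
      intro hc
      obtain ⟨h1, h2, _⟩ := hK c (by omega)
      exact hALT (3 + c) (N + c) (chi σ ρ c) (ρ c) (ih (by omega)) h1 h2
  exact key m le_rfl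

end Pool.Agent.Helper54.SP
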