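import Mathlib
import Pool.Agent.Helper54.SP.StmtsP

/-!
Module BR of the crew project on MP_308581_lc: symmetries of the bracket.
-/

namespace Pool.Agent.Helper54.SP

theorem br_apx (N m : ℕ) : (apx N m).length = m := by
  simp [apx]

theorem st_BR (hDSW : ST_DSW) : ST_BR := by
  intro N m X
  have hS1 : ∀ p q r, br N m X q p r = -br N m X p q r := by
    intro p q r
    have h := hDSW (3 + m) X [] (r :: apx N m) p q (by simp [br_apx]; omega)
    exact h
  have hS2 : ∀ p q r, br N m X p r q = -br N m X p q r := by
    intro p q r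
    have h := hDSW (3 + m) X [p] (apx N m) q r (by simp [br_apx]; omega)
    exact h
  intro p q r
  refine ⟨hS1 p q r, hS2 p q r, ?_, ?_⟩
  · rw [hS2 q p r, hS1 p q r, neg_neg]
  · rw [hS1 p r q, hS2 p q r, neg_neg]

end Pool.Agent.Helper54.SP
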