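import Mathlib
import Pool.Agent.Helper54.SP.StmtsW

/-!
Module EU of the crew project on MP_308581_lc: the increasing lists are computed in polynomial
time.
-/

namespace Pool.Agent.Helper54.SP

open Pool.Agent.Helper54.Poly

theorem st_EU : ST_EU := by
  intro d
  induction d with
  | zero =>
    intro α _ lo n _ _
    exact PT.const [[]]
  | succ d ih =>
    intro α _ lo n hlo hn
    have h1 : PT (fun y : α × ℕ => subs d (y.2 + 1) (n y.1)) :=
      ih (fun y : α × ℕ => y.2 + 1) (fun y : α × ℕ => n y.1) PT.id.snd.succ (hn.comp PT.id.fst)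
    have h2 : PT (fun y : α × ℕ => (subs d (y.2 + 1) (n y.1)).map fun l => y.2 :: l) :=
      PT.map (f := fun z : (α × ℕ) × List ℕ => z.1.2 :: z.2)
        (PT.lcons PT.id.fst.snd PT.id.snd) h1
    have h3 : PT (fun y : α × ℕ => decide (lo y.1 ≤ y.2)) :=
      PT.leN (hlo.comp PT.id.fst) PT.id.snd
    have h4 := PT.ite h3 h2 (PT.const ([] : List (List ℕ)))
    have h5 := PT.flatMap h4 hn.range
    refine h5.congr fun a => ?_
    simp only [decide_eq_true_eq]
    rfl

end Pool.Agent.Helper54.SP
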