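import Mathlib
import Pool.Agent.Helper54.SP.Stmts

/-!
Module FX of the crew project on MP_308581_lc: the fan around the vertical direction.
-/

namespace Pool.Agent.Helper54.SP

theorem st_FX : ST_FX := by
  intro Γ nw _ p q hp hq _ _ hlt
  have hpq : p ≠ q := by
    rintro rfl
    exact lt_irrefl _ hlt
  have hA : ∀ a b, 2 ≤ a → sg0 Γ 0 a b = decide (xk a < xk b) := by
    intro a b ha
    have h1 : a ≠ 1 := by omega
    simp [sg0, h1]
  have hB : ∀ a b, 2 ≤ a → 2 ≤ b → a ≠ b →
      sg3 Γ 0 a b = if a < b then sg0 Γ 0 a b else !sg0 Γ 0 b a := by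
    intro a b ha hb _
    have h1 : 0 < a := by omega
    have h2 : 0 < b := by omega
    simp [sg3, h1, h2]
  have hC : ¬ (xk q < xk p) := not_lt.mpr hlt.le
  rw [hB p q hp hq hpq, hB q p hq hp hpq.symm, hA p q hp, hA q p hq]
  rcases lt_or_gt_of_ne hpq with h | h
  · have h' : ¬ q < p := not_lt.mpr h.le
    simp [h, h', hlt]
  · have h' : ¬ p < q := not_lt.mpr h.le
    simp [h, h', hC]

end Pool.Agent.Helper54.SP
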